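import Pool.Agent.R322.RhoForm

/-!
# MP_86f038_nt: the predicted threshold index for Miller basis forms is wrong for `ℓ = 303`

For `ℓ = 303 = 16·18 + 15` the prediction is `m(12ℓ) = 10·18 + 13 = 193`, but the form
`f_{3636,191}` has a zero which is not on the arc, so `m(12ℓ) ≤ 191`.
-/

set_option autoImplicit false

open UpperHalfPlane hiding I
open Real Complex Filter Topology Derivative EisensteinSeries ModularForm MatrixGroups Function CuspForm
open scoped Manifold MatrixGroups ModularForm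

namespace Pool.Agent.Results.MP_86f038_nt.ThresholdFails

/-- `f` is the Miller basis form `f_{12ℓ,m}`: a modular form of weight `12 ℓ` for `SL₂(ℤ)` whose
`q`-expansion is `q^m + O(q^{ℓ+1})`. -/
def IsMiller (ℓ m : ℕ) (f : ModularForm 𝒮ℒ ((12 * ℓ : ℕ) : ℤ)) : Prop :=
  ∀ i ≤ ℓ, (qExpansion 1 f).coeff i = if i = m then 1 else 0

/-- `τ` is on the arc: its `SL₂(ℤ)`-orbit meets `{e^{iθ} : π/2 ≤ θ ≤ 2π/3}`. -/
def OnArc (τ : ℍ) : Prop :=
  ∃ γ : SL(2, ℤ), ∃ θ : ℝ, π / 2 ≤ θ ∧ θ ≤ 2 * π / 3 ∧
    ((γ • τ : ℍ) : ℂ) = Complex.exp (θ * Complex.I)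

/-- The form `f_{12ℓ,m}` has a zero which is not on the arc. -/
def HasZeroOffArc (ℓ m : ℕ) : Prop :=
  ∃ f : ModularForm 𝒮ℒ ((12 * ℓ : ℕ) : ℤ), IsMiller ℓ m f ∧ ∃ τ : ℍ, f τ = 0 ∧ ¬ OnArc τ

/-- `m(12ℓ) = M`: `M` is the least `m ∈ {0, …, ℓ}` such that `f_{12ℓ,m}` has a zero not on the
arc. -/
def IsThreshold (ℓ M : ℕ) : Prop := IsLeast {m : ℕ | m ≤ ℓ ∧ HasZeroOffArc ℓ m} M

/-- The numbers `m_0, …, m_15`. -/
def mr (r : ℕ) : ℕ := [4, 3, 4, 5, 6, 7, 6, 7, 8, 9, 10, 9, 10, 11, 12, 13].getD r 0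

/-- The conjecture Q1. -/
def Q1 : Prop := ∀ ℓ : ℕ, 30 < ℓ →
  IsThreshold ℓ (10 * (ℓ / 16) + mr (ℓ % 16)) ∧
  ∀ M m : ℕ, IsThreshold ℓ M → M ≤ m → m ≤ ℓ - 1 → HasZeroOffArc ℓ m

open Pool.Agent.R322.QD

/-- Existence and uniqueness of the Miller form. -/
lemma miller_unique (ℓ m : ℕ) :
    ∃! f : ModularForm 𝒮ℒ ((12 * ℓ : ℕ) : ℤ), IsMiller ℓ m f := by
  set L : ModularForm 𝒮ℒ ((12 * ℓ : ℕ) : ℤ) →ₗ[ℂ] (Fin (ℓ + 1) → ℂ) :=
    { toFun := fun f i => (qExpansion 1 f).coeff (i : ℕ)
      map_add' := by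
        intro f g
        funext i
        rw [FunLike.coe_add, ModularForm.qExpansion_add one_pos one_mem_strictPeriods_SL, map_add]
        rfl
      map_smul' := by
        intro c f
        funext i
        rw [FunLike.coe_smul, ModularForm.qExpansion_smul one_pos one_mem_strictPeriods_SL,
          PowerSeries.coeff_smul]
        rfl } with hL
  have hinj : Function.Injective L := by
    rw [← LinearMap.ker_eq_bot, LinearMap.ker_eq_bot']
    intro f hf
    have hM : ∀ i ≤ ℓ, (qExpansion 1 f).coeff i = if i = ℓ + 1 then 1 else 0 := by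
      intro i hi
      rw [if_neg (by omega)]
      exact congrFun hf ⟨i, by omega⟩
    obtain ⟨b, hb, -, h2, -⟩ := miller4 ℓ (ℓ + 1) f hM
    ext τ
    rw [hb τ]
    have : ∑ i ∈ Finset.range (ℓ + 1), (b i : ℂ) *
        ((E₄ τ ^ 3) ^ i * ModularForm.discriminant τ ^ (ℓ - i)) = 0 := by
      refine Finset.sum_eq_zero fun i hi => ?_
      rw [Finset.mem_range] at hi
      rw [h2 i (by omega) (by omega)]
      simp
    rw [this]
    rfl
  have hfin : Module.finrank ℂ (ModularForm 𝒮ℒ ((12 * ℓ : ℕ) : ℤ)) =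
      Module.finrank ℂ (Fin (ℓ + 1) → ℂ) := by
    rw [Module.finrank_fin_fun]
    apply Module.finrank_eq_of_rank_eq
    rw [dimension_level_one (12 * ℓ) (by rw [Nat.even_iff]; omega)]
    split_ifs with h
    · exact absurd h (by unfold Nat.ModEq; omega)
    · have : (12 * ℓ) / 12 = ℓ := by omega
      rw [this]
      try push_cast
      try rfl
  have hsurj : Function.Surjective L :=
    (LinearMap.injective_iff_surjective_of_finrank_eq_finrank hfin).mp hinj
  obtain ⟨f, hf⟩ := hsurj (fun i => if (i : ℕ) = m then 1 else 0)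
  refine ⟨f, fun i hi => congrFun hf ⟨i, by omega⟩, fun g hg => hinj ?_⟩
  rw [hf]
  funext i
  exact hg i (by omega)

/-- A real polynomial of even degree with leading coefficient one, given by its coefficients, is
positive far out on the negative axis. -/
lemma pos_neg_axis (n : ℕ) (hn : Even n) (b : ℕ → ℝ) (hb : b n = 1) :
    ∀ᶠ x : ℝ in atBot, 0 < ∑ i ∈ Finset.range (n + 1), b i * x ^ i := by
  set P : Polynomial ℝ := ∑ i ∈ Finset.range (n + 1), Polynomial.C (b i * (-1) ^ i) * Polynomial.X ^ i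
    with hP
  have hcoeff : ∀ k, P.coeff k = if k < n + 1 then b k * (-1) ^ k else 0 := by
    intro k
    rw [hP, Polynomial.finsetSum_coeff]
    simp only [Polynomial.coeff_C_mul, Polynomial.coeff_X_pow, mul_ite, mul_one, mul_zero]
    rw [Finset.sum_ite_eq (Finset.range (n + 1)) k]
    simp only [Finset.mem_range]
  have hle : P.natDegree ≤ n := by
    rw [Polynomial.natDegree_le_iff_coeff_eq_zero]
    intro k hk
    rw [hcoeff, if_neg (by omega)]
  have hcn : P.coeff n = 1 := by
    rw [hcoeff, if_pos (by omega), hb, hn.neg_one_pow, one_mul]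
  have hev : ∀ x : ℝ, P.eval x = ∑ i ∈ Finset.range (n + 1), b i * (-x) ^ i := by
    intro x
    rw [hP, Polynomial.eval_finsetSum]
    refine Finset.sum_congr rfl fun i _ => ?_
    simp only [Polynomial.eval_mul, Polynomial.eval_C, Polynomial.eval_pow, Polynomial.eval_X]
    rw [neg_pow x]; ring
  have hdeg : P.natDegree = n := Polynomial.natDegree_eq_of_le_of_coeff_ne_zero hle (by
    rw [hcn]; exact one_ne_zero)
  have hlc : P.leadingCoeff = 1 := by
    rw [Polynomial.leadingCoeff, hdeg, hcn]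
  have hpos : ∀ᶠ x : ℝ in atTop, 0 < P.eval x := by
    by_cases hn0 : n = 0
    · refine Eventually.of_forall fun x => ?_
      rw [hev, hn0]
      simp only [zero_add, Finset.range_one, Finset.sum_singleton, pow_zero, mul_one]
      rw [hn0] at hb
      rw [hb]; exact one_pos
    · have h1 : Tendsto (fun x => P.eval x) atTop atTop := by
        apply Polynomial.tendsto_atTop_of_leadingCoeff_nonneg
        · rw [← Polynomial.natDegree_pos_iff_degree_pos, hdeg]; omega
        · rw [hlc]; exact zero_le_one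
      exact h1.eventually (eventually_gt_atTop 0)
  have h2 := tendsto_neg_atBot_atTop.eventually hpos
  filter_upwards [h2] with x hx
  rw [hev] at hx
  simpa using hx

/-- The form `f_{3636,191}` has a zero which is not on the arc. -/
lemma main : HasZeroOffArc 303 191 := by
  obtain ⟨f, hf, -⟩ := miller_unique 303 191
  refine ⟨f, hf, ?_⟩
  obtain ⟨b, hb, hex, hz, htop⟩ := miller4 303 191 f hf
  -- the constant coefficient
  have hb0 : b 0 < 0 := by
    obtain ⟨r, hr, hr'⟩ := Pool.Agent.R322.QD.Num.b0_neg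
    have h := hex 0 (by omega)
    rw [add_zero, PowerSeries.coeff_X_pow_mul', if_pos (by omega), pow_zero, mul_one] at h
    rw [show 303 - 0 = 303 from rfl, show 303 - 191 = 112 from rfl, hr'] at h
    have : b 0 = r := by exact_mod_cast h
    rw [this]; exact hr
  -- values on the line
  set g : ℝ → ℝ := fun x => ∑ i ∈ Finset.range (112 + 1), b i * x ^ i with hg
  have hval : ∀ t : ℝ, f (lp t) = ModularForm.discriminant (lp t) ^ 303 * ((g (xj t) : ℝ) : ℂ) := by
    intro t
    rw [hb (lp t), hg]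
    have hsub : ∑ i ∈ Finset.range (303 + 1), (b i : ℂ) *
        ((E₄ (lp t) ^ 3) ^ i * ModularForm.discriminant (lp t) ^ (303 - i)) =
        ∑ i ∈ Finset.range (112 + 1), (b i : ℂ) *
        ((E₄ (lp t) ^ 3) ^ i * ModularForm.discriminant (lp t) ^ (303 - i)) := by
      symm
      apply Finset.sum_subset
      · intro i hi
        rw [Finset.mem_range] at hi ⊢
        omega
      · intro i hi hi'
        rw [Finset.mem_range] at hi hi'
        rw [hz i (by omega) (by omega)]
        simp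
    rw [hsub]
    push_cast
    rw [Finset.mul_sum]
    refine Finset.sum_congr rfl fun i hi => ?_
    rw [Finset.mem_range] at hi
    have hd := discriminant_ne_zero (lp t)
    rw [← xj_eq t, div_pow]
    have h3 : ModularForm.discriminant (lp t) ^ 303 =
        ModularForm.discriminant (lp t) ^ (303 - i) * ModularForm.discriminant (lp t) ^ i := by
      rw [← pow_add]; congr 1; omega
    rw [h3]
    field_simp
  have hgc : Continuous fun t => g (xj t) := by
    have : Continuous g := by
      rw [hg]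
      fun_prop
    exact this.comp xj_continuous
  have hg0 : g (xj 0) < 0 := by
    rw [xj_zero, hg]
    simp only
    rw [Finset.sum_range_succ']
    have : ∑ k ∈ Finset.range 112, b (k + 1) * (0 : ℝ) ^ (k + 1) = 0 :=
      Finset.sum_eq_zero fun k _ => by simp
    rw [this]
    simpa using hb0
  have hgT : ∃ T : ℝ, 1 < T ∧ 0 < g (xj T) := by
    have h1 := pos_neg_axis 112 (by decide) b (htop 112 (by norm_num))
    have h2 := xj_tendsto.eventually h1
    obtain ⟨T, hT1, hT2⟩ := (h2.and (eventually_gt_atTop 1)).exists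
    exact ⟨T, hT2, hT1⟩
  obtain ⟨T, hT1, hT2⟩ := hgT
  obtain ⟨t, ht, ht0⟩ := intermediate_value_Icc (show (0 : ℝ) ≤ T by linarith) hgc.continuousOn
    (show (0 : ℝ) ∈ Set.Icc (g (xj 0)) (g (xj T)) from ⟨hg0.le, hT2.le⟩)
  -- `t > √3/2`
  have htgt : √3 / 2 < t := by
    by_contra hcon
    push Not at hcon
    have e : lp t = lp 0 := by
      apply UpperHalfPlane.ext
      rw [lp_coe, lp_coe, max_eq_right hcon, max_eq_right (by positivity)]
    have e2 : xj t = xj 0 := by unfold xj; rw [e]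
    simp only [e2] at ht0
    linarith
  refine ⟨lp t, ?_, ?_⟩
  · rw [hval t]
    simp only at ht0
    rw [ht0]; simp
  · rintro ⟨γ, θ, hθ1, hθ2, hθ⟩
    have hre : (γ • lp t).re = Real.cos θ := by
      have := congrArg Complex.re hθ
      rw [Complex.exp_ofReal_mul_I_re] at this
      exact this
    refine not_equiv (lp t) (γ • lp t) (lp_re t) ?_ ?_ ?_ ?_ γ rfl
    · have h1 : (1 : ℝ) < ‖((lp t : ℍ) : ℂ)‖ ^ 2 := by
        rw [← Complex.normSq_eq_norm_sq, Complex.normSq_apply]
        have h2 := lp_re t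
        have h3 := lp_im t
        rw [max_eq_left htgt.le] at h3
        rw [UpperHalfPlane.coe_re, UpperHalfPlane.coe_im, h2, h3]
        have h4 : (√3 / 2) ^ 2 = 3 / 4 := by rw [div_pow, Real.sq_sqrt (by norm_num)]; norm_num
        have h5 : 0 < √3 / 2 := by positivity
        nlinarith
      by_contra hcon
      push Not at hcon
      have : ‖((lp t : ℍ) : ℂ)‖ ^ 2 ≤ 1 := pow_le_one₀ (norm_nonneg _) hcon
      linarith
    · rw [hθ, Complex.norm_exp_ofReal_mul_I]
    · rw [hre]
      have h1 : Real.cos (2 * π / 3) = -1 / 2 := by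
        have : 2 * π / 3 = π - π / 3 := by ring
        rw [this, Real.cos_pi_sub, Real.cos_pi_div_three]; norm_num
      rw [← h1]
      apply Real.cos_le_cos_of_nonneg_of_le_pi
      · have := Real.pi_pos; linarith
      · have := Real.pi_pos; linarith
      · exact hθ2
    · rw [hre]
      apply Real.cos_nonpos_of_pi_div_two_le_of_le hθ1
      have := Real.pi_pos; linarith

/-- **The conjectured threshold fails at `ℓ = 303`.** -/
theorem result :
    (∀ ℓ m : ℕ, m ≤ ℓ → ∃! f : ModularForm 𝒮ℒ ((12 * ℓ : ℕ) : ℤ), IsMiller ℓ m f) ∧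
    HasZeroOffArc 303 191 ∧
    (∀ M : ℕ, IsThreshold 303 M → M ≤ 191) ∧
    10 * (303 / 16) + mr (303 % 16) = 193 ∧
    ¬ Q1 := by
  have h3 : ∀ M : ℕ, IsThreshold 303 M → M ≤ 191 := fun M hM => hM.2 ⟨by norm_num, main⟩
  have h4 : 10 * (303 / 16) + mr (303 % 16) = 193 := by decide
  refine ⟨fun ℓ m _ => miller_unique ℓ m, main, h3, h4, fun hQ => ?_⟩
  have h5 := h3 _ (hQ 303 (by norm_num)).1
  rw [h4] at h5
  omega

end Pool.Agent.Results.MP_86f038_nt.ThresholdFails
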